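import Pool.Agent.H43.As1

open Set Metric Filter Topology Module Pool.Agent.H43.As

namespace Pool.Agent.Results.MP_b41e65_an.Full

/-- determinant of an orthogonal map -/
noncomputable def det {d : ℕ} (R : Iso d) : ℝ := LinearMap.det (R.toLinearEquiv : E d →ₗ[ℝ] E d)

/-- the group generated by the `O i` -/
def gen {d : ℕ} {ι : Type} (O : ι → Iso d) : Set (Iso d) := Subgroup.closure (range O)

/-- the closure (in operator norm) of the group generated by the `O i` contains `SO(d)` -/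
def DenseRot {d : ℕ} {ι : Type} (O : ι → Iso d) : Prop :=
  ∀ R : Iso d, det R = 1 → ∀ ε > 0, ∃ g ∈ gen O, ∀ x, ‖act g x - act R x‖ ≤ ε * ‖x‖

variable {d : ℕ} {F : Set (E d)} {A B A' B' : E d ≃ₗᵢ[ℝ] E d} {a b : ℝ} {s t : E d}

def Good (F : Set (E d)) (c : ℝ) (O : E d ≃ₗᵢ[ℝ] E d) (t : E d) : Prop :=
  0 < c ∧ c ≤ 1 ∧ ∀ x ∈ F, c • O x + t ∈ F

def Cl (A B : E d ≃ₗᵢ[ℝ] E d) (ε : ℝ) : Prop := ∀ x, ‖A x - B x‖ ≤ ε * ‖x‖

def Ap (F : Set (E d)) (R : E d ≃ₗᵢ[ℝ] E d) : Prop := ∀ ε > 0, ∃ c O t, Good F c O t ∧ Cl O R ε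

lemma Good.mul (h : Good F a A s) (h' : Good F b B t) : Good F (a * b) (A * B) (a • A t + s) :=
  ⟨mul_pos h.1 h'.1, mul_le_one₀ h.2.1 h'.1.le h'.2.1, fun x hx => by
    have := h.2.2 _ (h'.2.2 x hx)
    rwa [map_add, map_smul, smul_add, smul_smul, add_assoc] at this⟩

lemma good_one : Good F 1 1 0 := ⟨one_pos, le_rfl, fun x hx => by simpa using hx⟩

lemma Cl.mul (h : Cl A B a) (h' : Cl A' B' b) : Cl (A * A') (B * B') (a + b) := fun x => by
  have e : (A * A') x - (B * B') x = A (A' x - B' x) + (A (B' x) - B (B' x)) := by simp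
  have := h (B' x)
  rw [B'.norm_map] at this
  rw [e]; refine (norm_add_le _ _).trans ?_
  rw [A.norm_map]; linarith [h' x]

lemma Cl.trans (h : Cl A B a) (h' : Cl B A' b) : Cl A A' (a + b) := fun x =>
  (norm_sub_le_norm_sub_add_norm_sub _ (B x) _).trans (by linarith [h x, h' x])

lemma cl_refl : Cl A A 0 := fun x => by simp

lemma Good.near (h : Good F a A s) {ε : ℝ} (hε : 0 < ε) :
    ∃ c O t, Good F c O t ∧ Cl (A * O) 1 ε := by
  obtain ⟨n, hn⟩ := recur A hε
  have : ∀ n, ∃ c t, Good F c (A ^ n) t := fun n => by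
    induction n with
    | zero => exact ⟨_, _, good_one⟩
    | succ n ih => obtain ⟨c, t, i⟩ := ih; exact ⟨_, _, pow_succ A n ▸ i.mul h⟩
  obtain ⟨c, t, i⟩ := this n
  exact ⟨c, _, t, i, pow_succ' A n ▸ hn⟩

lemma Ap.mul (h : Ap F A) (h' : Ap F B) : Ap F (A * B) := fun ε hε => by
  obtain ⟨_, _, _, i, j⟩ := h (ε / 2) (by positivity)
  obtain ⟨_, _, _, i', j'⟩ := h' (ε / 2) (by positivity)
  exact ⟨_, _, _, i.mul i', add_halves ε ▸ j.mul j'⟩

lemma Ap.inv (h : Ap F A) : Ap F A⁻¹ := fun ε hε => by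
  obtain ⟨_, O, _, i, j⟩ := h (ε / 2) (by positivity)
  obtain ⟨_, O', _, i', j'⟩ := i.near (half_pos hε)
  refine ⟨_, _, _, i', fun x => ?_⟩
  have a := j (O' x)
  rw [O'.norm_map, norm_sub_rev] at a
  have : ‖O' x - A⁻¹ x‖ = ‖A (O' x) - x‖ := by rw [← A.norm_map]; simp
  rw [this]
  exact (norm_sub_le_norm_sub_add_norm_sub _ (O (O' x)) _).trans (by
    have := j' x; simp only [LinearIsometryEquiv.coe_mul, Function.comp, LinearIsometryEquiv.coe_one, id] at this
    linarith)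

def Pat (F : Set (E d)) (V : Submodule ℝ (E d)) (G : Set (E d)) : Prop :=
  ∀ η > 0, ∃ δ > 0, ∃ Q, Ap F Q ∧ ∃ x0, ∀ g ∈ G, ∃ p ∈ F,
    ‖V.starProjection (Q p) - x0 - δ • g‖ ≤ δ * η

lemma step {V : Submodule ℝ (E d)} {G : Set (E d)} {D : ℝ} (hD : ∀ p ∈ F, ‖p‖ ≤ D)
    (hR : ∀ R : E d ≃ₗᵢ[ℝ] E d, LinearMap.det (R.toLinearEquiv : E d →ₗ[ℝ] E d) = 1 → Ap F R)
    (hs : ∀ y ∈ F, ∀ κ > 0, ∃ c O t, Good F c O t ∧ c ≤ κ ∧ ∃ z ∈ F, y = c • O z + t)
    {y0 y1 : E d} (h0 : y0 ∈ F) (h1 : y1 ∈ F) (h01 : y1 ≠ y0) (hV : Vᗮ ≠ ⊥) (h : Pat F V G)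
    {w : E d} (hw : w ∈ V) : Pat F V (G ∪ (· + w) '' G) := by
  intro η hη
  obtain ⟨δ, δ0, Q, hQ, x0, hG⟩ := h (η / 2) (by positivity)
  set L := ‖y1 - y0‖
  have L0 : 0 < L := norm_pos_iff.2 (sub_ne_zero.2 h01)
  have D0 : 0 < D + 1 := by linarith [(norm_nonneg _).trans (hD _ h0)]
  obtain ⟨e, he, ne, e2⟩ : ∃ e ∈ Vᗮ, ‖e‖ = L ∧ Q⁻¹ e + (y1 - y0) ≠ 0 := by
    obtain ⟨v, hv, v0⟩ := (Submodule.ne_bot_iff _).1 hV
    have n : ‖(L / ‖v‖) • v‖ = L := by
      have := norm_pos_iff.2 v0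
      rw [norm_smul, Real.norm_of_nonneg (by positivity)]; field_simp
    by_cases c : Q⁻¹ ((L / ‖v‖) • v) + (y1 - y0) = 0
    · refine ⟨-((L / ‖v‖) • v), neg_mem (Submodule.smul_mem _ _ hv), by rw [norm_neg, n], ?_⟩
      rw [map_neg, eq_neg_of_add_eq_zero_left c, neg_neg, ← two_smul ℝ]
      exact smul_ne_zero two_ne_zero (sub_ne_zero.2 h01)
    · exact ⟨_, Submodule.smul_mem _ _ hv, n, c⟩
  obtain ⟨R, R1, R2, -⟩ := rot (u := Q⁻¹ e) (v := y1 - y0) (by rw [LinearIsometryEquiv.norm_map, ne])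
    (norm_pos_iff.1 (by rw [LinearIsometryEquiv.norm_map, ne]; exact L0)) e2
  set ε := δ * η / (16 * (D + 1))
  have ε0 : 0 < ε := by positivity
  obtain ⟨κ, κ0, k1, k2, k3⟩ : ∃ κ > 0, κ ≤ L / 8 ∧ 32 * κ / L ≤ ε ∧ 4 * κ / L * ‖w‖ ≤ η / 4 := by
    have t : ∀ c : ℝ, Tendsto (fun κ : ℝ => c * κ) (𝓝[>] 0) (𝓝 0) := fun c => by
      simpa using (tendsto_id.const_mul c : Tendsto _ (𝓝 (0 : ℝ)) _).mono_left nhdsWithin_le_nhds
    obtain ⟨κ, ⟨⟨a, b⟩, c⟩, f⟩ := (((((t 1).eventually (eventually_le_nhds (show 0 < L / 8 by positivity))).and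
      ((t (32 / L)).eventually (eventually_le_nhds ε0))).and ((t (4 / L * ‖w‖)).eventually
      (eventually_le_nhds (show 0 < η / 4 by positivity)))).and self_mem_nhdsWithin).exists
    exact ⟨κ, f, by linarith, b.trans_eq' (by ring), c.trans_eq' (by ring)⟩
  set μ := κ / (6 * (D + 1) + δ * ‖w‖)
  have μ0 : 0 < μ := by positivity
  have μ1 : μ * (6 * (D + 1) + δ * ‖w‖) = κ := div_mul_cancel₀ _ (by positivity)
  obtain ⟨a0, A0, s0, ga, a1, z0, hz0, ez0⟩ := hs y0 h0 μ μ0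
  obtain ⟨b0, B0, t0, gb, b1, z1, hz1, ez1⟩ := hs y1 h1 μ μ0
  obtain ⟨a', A', s', ga', ca⟩ := ga.near ε0
  obtain ⟨b', B', t', gb', cb⟩ := gb.near ε0
  obtain ⟨r, W, u, gw, cw⟩ := hR R R1 ε ε0
  have tb : ∀ {c O t}, Good F c O t → ‖t‖ ≤ 2 * D := fun {c O t} g => by
    have i := hD _ (g.2.2 _ h0)
    have j : ‖c • O y0‖ ≤ D := by
      rw [norm_smul, O.norm_map, Real.norm_of_nonneg g.1.le]
      exact (mul_le_of_le_one_left (norm_nonneg _) g.2.1).trans (hD _ h0)
    have := norm_sub_le (c • O y0 + t) (c • O y0)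
    rw [add_sub_cancel_left] at this; linarith
  have ext : ∀ {c O t z c' O' t'}, Good F c O t → c ≤ μ → z ∈ F → Good F c' O' t' →
      ‖c • O t' + t - (c • O z + t)‖ ≤ μ * (3 * (D + 1)) := fun {c O t z c' O' t'} g i j g' => by
    rw [add_sub_add_right_eq_sub, ← smul_sub, ← map_sub, norm_smul, O.norm_map,
      Real.norm_of_nonneg g.1.le]
    exact mul_le_mul i ((norm_sub_le _ _).trans (by linarith [tb g', hD _ j])) (norm_nonneg _) μ0.le
  have X := ga'.mul (gb.mul (gb'.mul gw))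
  have Y := gb'.mul (ga.mul (ga'.mul gw))
  have i0 := ext ga a1 hz0 X
  have i1 := ext gb b1 hz1 Y
  have Ga := ga.mul X
  have Gb := gb.mul Y
  rw [← ez0] at i0; rw [← ez1] at i1
  have cA : Cl (A0 * (A' * (B0 * (B' * W)))) R (ε + ε + ε) := by
    simpa [mul_assoc] using (ca.mul cb).mul cw
  have cB : Cl (B0 * (B' * (A0 * (A' * W)))) R (ε + ε + ε) := by
    simpa [mul_assoc] using (cb.mul ca).mul cw
  have cc : a0 * (a' * (b0 * (b' * r))) ≤ μ := (mul_le_of_le_one_right ga.1.le X.2.1).trans a1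
  rw [show b0 * (b' * (a0 * (a' * r))) = a0 * (a' * (b0 * (b' * r))) by ring] at Gb
  clear ez0 ez1
  generalize a0 * (a' * (b0 * (b' * r))) = c at *
  generalize A0 * (A' * (B0 * (B' * W))) = Oa at *
  generalize B0 * (B' * (A0 * (A' * W))) = Ob at *
  generalize a0 • A0 (a' • A' (b0 • B0 (b' • B' u + t') + t0) + s') + s0 = ta at *
  generalize b0 • B0 (b' • B' (a0 • A0 (a' • A' u + s') + s0) + t') + t0 = tb' at *
  have c0 := Ga.1
  have w0 : 0 ≤ μ * (δ * ‖w‖) := by positivity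
  have w1 : 0 ≤ μ * (D + 1) := by positivity
  set u1 := (Q * R⁻¹) (tb' - ta)
  set z' := e + (c * δ) • w
  have j1 : ‖u1 - e‖ ≤ κ := by
    have : e = (Q * R⁻¹) (y1 - y0) := by rw [← R2]; simp
    rw [this, ← map_sub, LinearIsometryEquiv.norm_map,
      show tb' - ta - (y1 - y0) = (tb' - y1) - (ta - y0) by abel]
    exact (norm_sub_le _ _).trans (by linarith)
  have j2 : ‖z' - e‖ ≤ κ := by
    rw [add_sub_cancel_left, norm_smul, Real.norm_of_nonneg (by positivity), mul_assoc]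
    exact (mul_le_mul_of_nonneg_right cc (by positivity)).trans (by linarith)
  have j3 := abs_le.1 ((abs_norm_sub_norm_le _ _).trans j1)
  have j4 := abs_le.1 ((abs_norm_sub_norm_le _ _).trans j2)
  rw [ne] at j3 j4
  have z0' : 0 < ‖z'‖ := by linarith
  set l := ‖u1‖ / ‖z'‖
  have l1 : (l - 1) * ‖z'‖ = ‖u1‖ - ‖z'‖ := by simp only [l]; field_simp
  have l2 : |l - 1| * ‖z'‖ ≤ 2 * κ := by
    rw [← abs_of_pos z0', ← abs_mul, l1, abs_le]; constructor <;> linarith
  have l3 : |l - 1| ≤ 4 * κ / L := by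
    rw [le_div_iff₀ L0]; nlinarith [abs_nonneg (l - 1)]
  have j5 : ‖u1 - l • z'‖ ≤ 4 * κ := by
    rw [show u1 - l • z' = (u1 - e) - (z' - e) - (l - 1) • z' by module]
    refine (norm_sub_le _ _).trans ?_
    rw [norm_smul, Real.norm_eq_abs]; linarith [norm_sub_le (u1 - e) (z' - e)]
  obtain ⟨P, P1, P2, P3⟩ := rot (u := u1) (v := l • z')
    (by rw [norm_smul, Real.norm_of_nonneg (by positivity), div_mul_cancel₀ _ z0'.ne'])
    (norm_pos_iff.1 (by linarith)) (fun f => by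
      rw [eq_neg_of_add_eq_zero_right f, sub_neg_eq_add, ← two_smul ℝ, norm_smul, Real.norm_two] at j5
      linarith)
  have cP : Cl P 1 ε := fun x => (P3 x).trans (mul_le_mul_of_nonneg_right (le_trans (by
    rw [div_le_div_iff₀ (by linarith) L0]; nlinarith [norm_nonneg (u1 - l • z')]) k2) (norm_nonneg _))
  set Q' := P * (Q * R⁻¹)
  have key : ∀ {O t}, Good F c O t → Cl O R (ε + ε + ε) → ∀ g ∈ G, ∃ p ∈ F,
      ‖V.starProjection (Q' p) - (c • x0 + V.starProjection (Q' t)) - (c * δ) • g‖ ≤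
        c * δ * (3 * η / 4) := fun {O t} g1 g2 g hg => by
    obtain ⟨p, hp, i⟩ := hG g hg
    refine ⟨_, g1.2.2 p hp, ?_⟩
    have q : Cl (Q' * O) Q (ε + 0 + (ε + ε + ε)) := by
      simpa [Q', mul_assoc] using (cP.mul (cl_refl (A := Q * R⁻¹))).mul g2
    have q1 := (V.norm_starProjection_apply_le _).trans (q p)
    have e1 : V.starProjection (Q' (c • O p + t)) - (c • x0 + V.starProjection (Q' t)) - (c * δ) • g =
        c • (V.starProjection ((Q' * O) p - Q p) + (V.starProjection (Q p) - x0 - δ • g)) := by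
      simp only [map_add, map_smul, map_sub, LinearIsometryEquiv.coe_mul, Function.comp]; module
    have e2 : ε * (16 * (D + 1)) = δ * η := div_mul_cancel₀ _ (by positivity)
    rw [e1, norm_smul, Real.norm_of_nonneg c0.le, mul_assoc c]
    refine mul_le_mul_of_nonneg_left ((norm_add_le _ _).trans ?_) c0.le
    have := mul_le_mul_of_nonneg_left (hD p hp) ε0.le
    linarith
  refine ⟨c * δ, by positivity, Q', (hR P P1).mul (hQ.mul (hR R R1).inv),
    c • x0 + V.starProjection (Q' ta), ?_⟩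
  have cd : 0 < c * δ := by positivity
  rintro _ (hg | ⟨g, hg, rfl⟩)
  · obtain ⟨p, hp, i⟩ := key Ga cA _ hg
    exact ⟨p, hp, i.trans (mul_le_mul_of_nonneg_left (by linarith) cd.le)⟩
  · obtain ⟨p, hp, i⟩ := key Gb cB _ hg
    refine ⟨p, hp, ?_⟩
    have e1 : V.starProjection (Q' tb') = V.starProjection (Q' ta) + l • (c * δ) • w := by
      have : Q' tb' = Q' ta + l • z' := by
        rw [← P2]; simp only [u1, Q', LinearIsometryEquiv.coe_mul, Function.comp, map_sub]; abel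
      rw [this]
      simp only [z', map_add, map_smul, (V.starProjection_apply_eq_zero_iff).2 he,
        Submodule.starProjection_eq_self_iff.2 hw, zero_add]
    rw [e1] at i
    rw [show V.starProjection (Q' p) - (c • x0 + V.starProjection (Q' ta)) - (c * δ) • (g + w) =
      V.starProjection (Q' p) - (c • x0 + (V.starProjection (Q' ta) + l • (c * δ) • w)) - (c * δ) • g +
        (c * δ) • (l - 1) • w by module]
    refine (norm_add_le _ _).trans ?_
    rw [norm_smul, norm_smul, Real.norm_of_nonneg cd.le, Real.norm_eq_abs]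
    have := mul_le_mul_of_nonneg_left ((mul_le_mul_of_nonneg_right l3 (norm_nonneg w)).trans k3) cd.le
    linarith

theorem result {d k : ℕ} (_hk : 1 ≤ k) (hkd : k < d) {ι : Type} [Finite ι] (c : ι → ℝ)
    (O : ι → Iso d) (t : ι → E d) (F : Set (E d)) (H : SelfSim c O t F)
    (h2 : F.Nontrivial) (hO : DenseRot O) (V : Sub d) (hV : rank V = k) :
    dimA IsOpen (proj V '' F) = k := by
  classical
  change finrank ℝ V = k at hV
  change dimA IsOpen (V.starProjection '' F) = k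
  obtain ⟨y1, h1, y0, h0, h01⟩ := h2
  obtain ⟨D, D0, hD⟩ := H.cpt.isBounded.exists_pos_norm_le
  have gi : ∀ i, Good F (c i) (O i) (t i) := fun i => ⟨(H.ratio i).1, (H.ratio i).2.le,
    fun x hx => H.eq ▸ mem_iUnion.2 ⟨i, x, H.eq ▸ hx, rfl⟩⟩
  have hR : ∀ R : E d ≃ₗᵢ[ℝ] E d, LinearMap.det (R.toLinearEquiv : E d →ₗ[ℝ] E d) = 1 → Ap F R := by
    intro R h ε hε
    obtain ⟨g, hg, i⟩ := hO R h (ε / 2) (by positivity)
    change g ∈ Subgroup.closure (range O) at hg
    have : Ap F g := by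
      clear i
      induction hg using Subgroup.closure_induction with
      | mem x hx => obtain ⟨j, rfl⟩ := hx; exact fun ε hε => ⟨_, _, _, gi j, fun x => by simp; positivity⟩
      | one => exact fun ε hε => ⟨_, _, _, good_one, fun x => by simp; positivity⟩
      | mul _ _ _ _ a b => exact a.mul b
      | inv _ _ a => exact a.inv
    obtain ⟨_, _, _, j, j'⟩ := this (ε / 2) (by positivity)
    exact ⟨_, _, _, j, add_halves ε ▸ j'.trans i⟩
  have dec : ∀ y ∈ F, ∃ i, ∃ z ∈ F, y = c i • O i z + t i := fun y hy => by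
    obtain ⟨i, z, a, b⟩ := mem_iUnion.1 (H.eq ▸ hy); exact ⟨i, z, a, b.symm⟩
  have hs : ∀ y ∈ F, ∀ κ > 0, ∃ c O t, Good F c O t ∧ c ≤ κ ∧ ∃ z ∈ F, y = c • O z + t := by
    intro y hy κ hκ
    haveI : Nonempty ι := ⟨(dec y hy).choose⟩
    obtain ⟨j, hj⟩ := Finite.exists_max c
    obtain ⟨n, hn⟩ := exists_pow_lt_of_lt_one hκ (H.ratio j).2
    suffices ∃ a A s, Good F a A s ∧ a ≤ c j ^ n ∧ ∃ z ∈ F, y = a • A z + s by
      obtain ⟨a, A, s, i, i', z⟩ := this; exact ⟨a, A, s, i, i'.trans hn.le, z⟩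
    clear hn
    induction n with
    | zero => exact ⟨_, _, _, good_one, by simp, y, hy, by simp⟩
    | succ n ih =>
      obtain ⟨a, A, s, g, g', z, hz, e⟩ := ih
      obtain ⟨i, z', hz', rfl⟩ := dec z hz
      refine ⟨_, _, _, g.mul (gi i), pow_succ (c j) n ▸ mul_le_mul g' (hj i) (H.ratio i).1.le
        (pow_pos (H.ratio j).1 n).le, z', hz', ?_⟩
      rw [e, map_add, map_smul, smul_add, smul_smul, add_assoc]; rfl
  have hV' : Vᗮ ≠ ⊥ := fun h => by
    rw [Submodule.orthogonal_eq_bot_iff.1 h, finrank_top, finrank_euclideanSpace_fin] at hV; omega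
  have pat : ∀ G : Finset (E d), (∀ g ∈ G, g ∈ V) → Pat F V (insert 0 G) := fun G => by
    induction G using Finset.induction_on with
    | empty => exact fun _ η hη => ⟨1, one_pos, 1, hR 1 LinearMap.det_id, V.starProjection y0,
        fun g hg => ⟨y0, h0, by simp at hg; simp [hg, hη.le]⟩⟩
    | insert w G _ ih =>
      intro h η hη
      obtain ⟨δ, a, Q, b, x, e⟩ := step hD hR hs h0 h1 h01 hV'
        (ih fun g hg => h g (Finset.mem_insert_of_mem hg)) (h w (Finset.mem_insert_self _ _)) η hη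
      refine ⟨δ, a, Q, b, x, fun g hg => e g ?_⟩
      simp only [Finset.coe_insert, mem_insert_iff] at hg
      rcases hg with rfl | rfl | hg
      exacts [Or.inl (mem_insert _ _), Or.inr ⟨0, mem_insert _ _, zero_add _⟩,
        Or.inl (mem_insert_of_mem _ hg)]
  refine dimA_eq (fun _ h => h) V (by rintro _ ⟨x, -, rfl⟩; exact V.starProjection_apply_mem x) hV
    (K := 4 * k + 4) (by have := Nat.cast_nonneg (α := ℝ) k; linarith) fun N hN => ?_
  subst hV
  set b := stdOrthonormalBasis ℝ V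
  set g : (Fin (finrank ℝ V) → Fin N) → V := fun z => b.repr.symm (WithLp.toLp 2 fun i => ((z i : ℕ) : ℝ))
  have g1 : ∀ z z', z ≠ z' → 1 ≤ ‖(g z : E d) - g z'‖ := fun z z' h => by
    obtain ⟨i, hi⟩ := Function.ne_iff.1 h
    rw [← Submodule.coe_sub, ← Submodule.coe_norm, ← map_sub, LinearIsometryEquiv.norm_map]
    refine le_trans ?_ (PiLp.norm_apply_le _ i)
    have : ((z i : ℕ) : ℤ) - (z' i : ℕ) ≠ 0 := fun c => hi (Fin.ext (by omega))
    have := Int.one_le_abs this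
    simp only [PiLp.sub_apply, Real.norm_eq_abs]
    exact_mod_cast this
  have N1 : (1 : ℝ) ≤ N := by exact_mod_cast hN
  have g2 : ∀ z z', ‖(g z : E d) - g z'‖ ≤ finrank ℝ V * N := fun z z' => by
    rw [← Submodule.coe_sub, ← Submodule.coe_norm, ← map_sub, LinearIsometryEquiv.norm_map,
      EuclideanSpace.norm_eq, Real.sqrt_le_left (by positivity)]
    refine (Finset.sum_le_card_nsmul _ _ ((N : ℝ) ^ 2) fun i _ => ?_).trans ?_
    · have a : ((z i : ℕ) : ℝ) ≤ N := by exact_mod_cast (z i).2.le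
      have a' : ((z' i : ℕ) : ℝ) ≤ N := by exact_mod_cast (z' i).2.le
      simp only [PiLp.sub_apply, Real.norm_eq_abs]
      exact pow_le_pow_left₀ (abs_nonneg _) (abs_le.2 ⟨by linarith [Nat.cast_nonneg (α := ℝ) (z i : ℕ)],
        by linarith [Nat.cast_nonneg (α := ℝ) (z' i : ℕ)]⟩) 2
    · simp only [Finset.card_univ, Fintype.card_fin, nsmul_eq_mul, mul_pow]
      gcongr; exact_mod_cast Nat.le_self_pow two_ne_zero _
  obtain ⟨δ, δ0, Q, hQ, x0, hG⟩ := pat (Finset.univ.image fun z => (g z : E d))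
    (by simp) (1 / 8) (by norm_num)
  obtain ⟨a, A, s, ga, ca⟩ := hQ (δ / (8 * D)) (by positivity)
  have a0 := ga.1
  have : ∀ z, ∃ q ∈ V.starProjection '' F,
      ‖q - (a • x0 + V.starProjection s) - (a * δ) • (g z : E d)‖ ≤ a * δ / 4 := fun z => by
    obtain ⟨p, hp, i⟩ := hG (g z) (by simp)
    refine ⟨_, ⟨_, ga.2.2 p hp, rfl⟩, ?_⟩
    have q1 := (V.norm_starProjection_apply_le _).trans ((ca p).trans
      (mul_le_mul_of_nonneg_left (hD p hp) (by positivity)))
    rw [show δ / (8 * D) * D = δ / 8 by field_simp] at q1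
    have e1 : V.starProjection (a • A p + s) - (a • x0 + V.starProjection s) - (a * δ) • (g z : E d) =
        a • (V.starProjection (A p - Q p) + (V.starProjection (Q p) - x0 - δ • (g z : E d))) := by
      simp only [map_add, map_smul, map_sub]; module
    rw [e1, norm_smul, Real.norm_of_nonneg a0.le, mul_div_assoc]
    exact mul_le_mul_of_nonneg_left ((norm_add_le _ _).trans (by linarith)) a0.le
  choose q q1 q2 using this
  have ad : 0 < a * δ := by positivity
  have q3 : ∀ z z', |‖q z - q z'‖ - a * δ * ‖(g z : E d) - g z'‖| ≤ a * δ / 2 := fun z z' => by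
    rw [← Real.norm_of_nonneg ad.le, ← norm_smul, Real.norm_of_nonneg ad.le]
    refine (abs_norm_sub_norm_le _ _).trans ?_
    rw [show q z - q z' - (a * δ) • ((g z : E d) - g z') =
      (q z - (a • x0 + V.starProjection s) - (a * δ) • (g z : E d)) -
      (q z' - (a • x0 + V.starProjection s) - (a * δ) • (g z' : E d)) by module]
    exact (norm_sub_le _ _).trans (by linarith [q2 z, q2 z'])
  have q4 : ∀ z z', dist (q z) (q z') ≤ a * δ / 4 → z = z' := fun z z' h => by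
    by_contra c
    have := mul_le_mul_of_nonneg_left (g1 z z' c) ad.le
    rw [dist_eq_norm] at h
    linarith [(abs_le.1 (q3 z z')).1]
  refine ⟨a * δ / 4, by positivity, q fun _ => ⟨0, hN⟩, q1 _, Finset.univ.image q, ?_, ?_, ?_⟩
  · simp only [Finset.coe_image, image_subset_iff]
    refine fun z _ => ⟨mem_ball_iff_norm.2 ?_, q1 z⟩
    have := mul_le_mul_of_nonneg_left (g2 z fun _ => ⟨0, hN⟩) ad.le
    nlinarith [(abs_le.1 (q3 z fun _ => ⟨0, hN⟩)).2]
  · rw [Finset.card_image_of_injective _ fun z z' h => q4 z z' (by rw [h, dist_self]; positivity)]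
    simp
  · simp only [Finset.forall_mem_image]
    intro z _ z' _ h; rw [q4 z z' h]

end Pool.Agent.Results.MP_b41e65_an.Full
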